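import Mathlib

/-!
# Weight decompositions and monodromy operators: linear algebra
-/

set_option autoImplicit false

namespace Pool.Agent.D0H76.WM

open Module Polynomial

section restrict

variable {R : Type*} [CommRing R] {k : Type*} [Field k] [Algebra R k] {V : Type*} [AddCommGroup V]
  [Module k V] [Algebra R (Module.End k V)]

theorem aeval_int_restrict {W : Submodule k V} {φ : Module.End k V} (hW : ∀ x ∈ W, φ x ∈ W)
    (P : ℤ[X]) (x : W) : ((aeval (φ.restrict hW) P x : W) : V) = aeval φ P (x : V) := by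
  induction P using Polynomial.induction_on' generalizing x with
  | add p q hp hq => rw [map_add, map_add, LinearMap.add_apply, LinearMap.add_apply,
      Submodule.coe_add, hp, hq]
  | monomial n a =>
    rw [aeval_monomial, aeval_monomial, Module.End.mul_apply, Module.End.mul_apply]
    have h1 : ∀ (m : ℕ) (y : W), (((φ.restrict hW) ^ m) y : V) = (φ ^ m) (y : V) := by
      intro m
      induction m with
      | zero => intro y; rfl
      | succ m ih =>
        intro y
        rw [pow_succ, pow_succ, Module.End.mul_apply, Module.End.mul_apply, ih]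
        rfl
    rw [eq_intCast, eq_intCast, ← zsmul_one, ← zsmul_one, LinearMap.smul_apply,
      LinearMap.smul_apply, Module.End.one_apply, Module.End.one_apply, ← h1]
    rfl

end restrict

theorem det_blockDiagonal' {k : Type*} [Field k] {ι : Type*} [Fintype ι] [LinearOrder ι]
    {d : ι → Type*} [∀ i, Fintype (d i)] [∀ i, DecidableEq (d i)]
    (D : ∀ i, Matrix (d i) (d i) k) : (Matrix.blockDiagonal' D).det = ∏ i, (D i).det := by
  classical
  rw [(Matrix.blockTriangular_blockDiagonal' D).det_fintype]
  refine Finset.prod_congr rfl fun i _ => ?_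
  let e : d i ≃ {a : Σ i, d i // a.1 = i} :=
    { toFun := fun x => ⟨⟨i, x⟩, rfl⟩
      invFun := fun a => cast (congrArg d a.2) a.1.2
      left_inv := fun x => rfl
      right_inv := by
        rintro ⟨⟨j, x⟩, h⟩
        obtain rfl : j = i := h
        rfl }
  rw [← Matrix.det_submatrix_equiv_self e]
  congr 1
  ext x y
  show Matrix.blockDiagonal' D ⟨i, x⟩ ⟨i, y⟩ = D i x y
  rw [Matrix.blockDiagonal'_apply_eq]

theorem det_internal {k : Type*} [Field k] {V : Type*} [AddCommGroup V] [Module k V]
    [FiniteDimensional k V] {ι : Type*} [Fintype ι] [LinearOrder ι] {U : ι → Submodule k V}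
    (h : DirectSum.IsInternal U) {φ : Module.End k V} (hφ : ∀ i, Set.MapsTo φ (U i) (U i)) :
    LinearMap.det φ = ∏ i, LinearMap.det (φ.restrict (hφ i)) := by
  classical
  let b : ∀ i, Basis (Fin (finrank k (U i))) k (U i) := fun i => Module.finBasis k (U i)
  rw [← LinearMap.det_toMatrix (h.collectedBasis b),
    LinearMap.toMatrix_directSum_collectedBasis_eq_blockDiagonal' h h b b hφ,
    det_blockDiagonal']
  refine Finset.prod_congr rfl fun i _ => ?_
  rw [LinearMap.det_toMatrix]

/-- two monic integral polynomials with roots of different absolute values -/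
theorem coprime_of_weight {P P' : ℤ[X]} {q i i' : ℕ} (hq : 1 < q) (hne : i ≠ i')
    (h : ∀ z : ℂ, z ∈ P.aroots ℂ → ‖z‖ ^ 2 = (q : ℝ) ^ i)
    (h' : ∀ z : ℂ, z ∈ P'.aroots ℂ → ‖z‖ ^ 2 = (q : ℝ) ^ i') (hP : P.Monic) (hP' : P'.Monic)
    (k : Type*) [Field k] [CharZero k] :
    IsCoprime (P.map (Int.castRingHom k)) (P'.map (Int.castRingHom k)) := by
  have h1 : IsCoprime (P.map (Int.castRingHom ℚ)) (P'.map (Int.castRingHom ℚ)) := by
    rw [← Polynomial.isCoprime_map (algebraMap ℚ ℂ), Polynomial.map_map, Polynomial.map_map,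
      Polynomial.isCoprime_iff_aeval_ne_zero_of_isAlgClosed ℂ ℂ]
    intro z
    by_contra hcon
    rw [not_or, not_not, not_not] at hcon
    have e1 : (algebraMap ℚ ℂ).comp (Int.castRingHom ℚ) = algebraMap ℤ ℂ := RingHom.ext_int _ _
    rw [e1] at hcon
    have h2 : z ∈ P.aroots ℂ := by
      rw [mem_aroots]
      refine ⟨hP.ne_zero, ?_⟩
      have := hcon.1
      rwa [Polynomial.aeval_map_algebraMap] at this
    have h3 : z ∈ P'.aroots ℂ := by
      rw [mem_aroots]
      refine ⟨hP'.ne_zero, ?_⟩
      have := hcon.2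
      rwa [Polynomial.aeval_map_algebraMap] at this
    have h4 := (h z h2).symm.trans (h' z h3)
    exact hne (pow_right_injective₀ (by exact_mod_cast (by omega : 0 < q))
      (by exact_mod_cast (by omega : q ≠ 1)) h4)
  have h2 := (Polynomial.isCoprime_map (algebraMap ℚ k)).2 h1
  rw [Polynomial.map_map, Polynomial.map_map] at h2
  have e1 : (algebraMap ℚ k).comp (Int.castRingHom ℚ) = Int.castRingHom k := RingHom.ext_int _ _
  rwa [e1] at h2

/-- The endomorphism `φ` (the action of a Frobenius element with `q` elements) and the endomorphism `N`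
(the monodromy operator) of `V` are as in the weight-monodromy conjecture for the weight `w`: the space
`V` is the direct sum of the spaces `V i = ker (Q i)(φ)`, `0 ≤ i ≤ 2 w`, where the roots of the monic
polynomial `Q i` with integral coefficients have the absolute value `q ^ (i / 2)`; `N` maps `V i` to
`V (i - 2)`, and `N ^ j` is injective on `V (w + j)`. -/
structure WeightGraded {k V : Type*} [Field k] [AddCommGroup V] [Module k V] (w q : ℕ)
    (φ N : Module.End k V) (Q : ℕ → ℤ[X]) : Prop where
  monic : ∀ i, (Q i).Monic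
  weight : ∀ i, ∀ z : ℂ, z ∈ (Q i).aroots ℂ → ‖z‖ ^ 2 = (q : ℝ) ^ i
  total : aeval φ (∏ i ∈ Finset.range (2 * w + 1), Q i) = 0
  lower : ∀ i x, aeval φ (Q (i + 2)) x = 0 → aeval φ (Q i) (N x) = 0
  low : ∀ i < 2, ∀ x, aeval φ (Q i) x = 0 → N x = 0
  injective : ∀ j, 1 ≤ j → ∀ x, aeval φ (Q (w + j)) x = 0 → (N ^ j) x = 0 → x = 0

namespace WeightGraded

section

variable {k V : Type*} [Field k] [AddCommGroup V] [Module k V] {w q : ℕ}
  {φ N : Module.End k V} {Q : ℕ → ℤ[X]}

theorem restrict (h : WeightGraded w q φ N Q) {W : Submodule k V} (hφ : ∀ x ∈ W, φ x ∈ W)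
    (hN : ∀ x ∈ W, N x ∈ W) : WeightGraded w q (φ.restrict hφ) (N.restrict hN) Q where
  monic := h.monic
  weight := h.weight
  total := by
    apply LinearMap.ext
    intro x
    apply Subtype.ext
    rw [aeval_int_restrict, h.total]
    rfl
  lower i x hx := by
    apply Subtype.ext
    rw [aeval_int_restrict]
    have h1 := congrArg Subtype.val hx
    rw [aeval_int_restrict] at h1
    exact h.lower i x h1
  low i hi x hx := by
    apply Subtype.ext
    have h1 := congrArg Subtype.val hx
    rw [aeval_int_restrict] at h1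
    exact h.low i hi x h1
  injective j hj x hx hNx := by
    apply Subtype.ext
    have h1 := congrArg Subtype.val hx
    rw [aeval_int_restrict] at h1
    have h2 := congrArg Subtype.val hNx
    rw [Module.End.pow_restrict j hN] at h2
    exact h.injective j hj x h1 h2

/-- the subspace of weight `i` -/
noncomputable def wt (φ : Module.End k V) (Q : ℕ → ℤ[X]) (i : ℕ) : Submodule k V :=
  LinearMap.ker (aeval φ (Q i))

theorem mem_wt {i : ℕ} {x : V} : x ∈ wt φ Q i ↔ aeval φ (Q i) x = 0 := LinearMap.mem_ker

theorem aeval_comm (P P' : ℤ[X]) (x : V) : aeval φ P (aeval φ P' x) = aeval φ P' (aeval φ P x) := by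
  rw [← Module.End.mul_apply, ← Module.End.mul_apply, ← map_mul, ← map_mul, mul_comm]

theorem phi_wt {i : ℕ} {x : V} (hx : x ∈ wt φ Q i) : φ x ∈ wt φ Q i := by
  rw [mem_wt] at hx ⊢
  have h1 := aeval_comm (φ := φ) (Q i) X x
  rw [aeval_X] at h1
  rw [h1, hx, map_zero]

theorem pow_wt (h : WeightGraded w q φ N Q) {i : ℕ} (j : ℕ) {x : V} (hx : x ∈ wt φ Q (i + 2 * j)) :
    (N ^ j) x ∈ wt φ Q i := by
  induction j generalizing i with
  | zero => simpa using hx
  | succ j ih =>
    rw [pow_succ', Module.End.mul_apply]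
    apply h.lower
    apply ih
    have e : i + 2 + 2 * j = i + 2 * (j + 1) := by ring
    rw [e]
    exact hx

variable [CharZero k]

/-- the projections -/
theorem exists_proj (h : WeightGraded w q φ N Q) (hq : 1 < q) :
    ∃ e : ℕ → k[X], (∀ x : V, ∑ i ∈ Finset.range (2 * w + 1), aeval φ (e i) x = x) ∧
      (∀ i ∈ Finset.range (2 * w + 1), ∀ x : V, aeval φ (e i) x ∈ wt φ Q i) ∧
      (∀ i ∈ Finset.range (2 * w + 1), ∀ i' ∈ Finset.range (2 * w + 1), i ≠ i' → ∀ x ∈ wt φ Q i',
        aeval φ (e i) x = 0) := by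
  classical
  set s := Finset.range (2 * w + 1) with hs
  let P : ℕ → k[X] := fun i => (Q i).map (Int.castRingHom k)
  have hP : ∀ (i : ℕ), aeval φ (P i) = aeval φ (Q i) := fun i => by
    show aeval φ ((Q i).map (algebraMap ℤ k)) = _
    rw [Polynomial.aeval_map_algebraMap]
  have hco : ∀ i ∈ s, ∀ i' ∈ s, i ≠ i' → IsCoprime (P i) (P i') := fun i _ i' _ hne =>
    coprime_of_weight hq hne (h.weight i) (h.weight i') (h.monic i) (h.monic i') k
  have hne : s.Nonempty := ⟨0, by rw [hs]; simp⟩
  obtain ⟨μ, hμ⟩ := (exists_sum_eq_one_iff_pairwise_coprime (s := P) hne).2 (by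
    rintro ⟨i, hi⟩ ⟨i', hi'⟩ hii'
    exact hco i hi i' hi' (fun h => hii' (Subtype.ext h)))
  have htot : aeval φ (∏ i ∈ s, P i) = 0 := by
    have h1 : ∏ i ∈ s, P i = (∏ i ∈ s, Q i).map (Int.castRingHom k) := by
      rw [Polynomial.map_prod]
    rw [h1]
    show aeval φ ((∏ i ∈ s, Q i).map (algebraMap ℤ k)) = _
    rw [Polynomial.aeval_map_algebraMap]
    exact h.total
  refine ⟨fun i => μ i * ∏ j ∈ s \ {i}, P j, ?_, ?_, ?_⟩
  · intro x
    have h1 := congrArg (fun p => aeval φ p x) hμ
    simp only [map_sum, map_one, LinearMap.sum_apply] at h1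
    exact h1
  · intro i hi x
    rw [mem_wt, ← hP, ← Module.End.mul_apply, ← map_mul]
    have h1 : P i * (μ i * ∏ j ∈ s \ {i}, P j) = μ i * ∏ j ∈ s, P j := by
      rw [← Finset.mul_prod_erase s P hi, Finset.sdiff_singleton_eq_erase]
      ring
    rw [h1, map_mul, htot, mul_zero]
    rfl
  · intro i hi i' hi' hii' x hx
    rw [mem_wt, ← hP] at hx
    have h1 : μ i * ∏ j ∈ s \ {i}, P j = (μ i * ∏ j ∈ (s \ {i}).erase i', P j) * P i' := by
      rw [mul_assoc, Finset.prod_erase_mul _ _ (by
        rw [Finset.mem_sdiff, Finset.mem_singleton]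
        exact ⟨hi', fun h => hii' h.symm⟩)]
    show aeval φ (μ i * ∏ j ∈ s \ {i}, P j) x = 0
    rw [h1, map_mul, Module.End.mul_apply, hx, map_zero]

theorem isInternal (h : WeightGraded w q φ N Q) (hq : 1 < q) :
    DirectSum.IsInternal fun i : Finset.range (2 * w + 1) => wt φ Q i := by
  classical
  obtain ⟨e, h1, h2, h3⟩ := h.exists_proj hq
  rw [DirectSum.isInternal_submodule_iff_iSupIndep_and_iSup_eq_top]
  constructor
  · rw [iSupIndep_iff_forall_dfinsupp]
    intro i x v hx
    have h4 : aeval φ (e i) (x : V) = x := by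
      have h5 := h1 (x : V)
      rw [Finset.sum_eq_single (i : ℕ)] at h5
      · exact h5
      · intro j hj hji
        exact h3 j hj i i.2 hji x x.2
      · intro h; exact absurd i.2 h
    apply Subtype.ext
    rw [← h4]
    have hx' : (x : V) = ∑ j ∈ v.support, if j = i then 0 else (v j : V) := by
      rw [← hx, DFinsupp.lsum_apply_apply, DFinsupp.sumAddHom_apply, DFinsupp.sum]
      apply Finset.sum_subset_zero_on_sdiff
      · intro j hj
        rw [DFinsupp.mem_support_toFun] at hj ⊢
        intro h0
        apply hj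
        rw [DFinsupp.erase_apply]
        split_ifs
        · rfl
        · exact h0
      · intro j hj
        rw [Finset.mem_sdiff, DFinsupp.notMem_support_iff, DFinsupp.erase_apply] at hj
        split_ifs with h6
        · rfl
        · have := hj.2
          rw [if_neg h6] at this
          rw [this]
          rfl
      · intro j hj
        rw [DFinsupp.erase_apply]
        split_ifs with h6
        · simp
        · rfl
    conv_lhs => rw [hx']
    rw [map_sum]
    apply Finset.sum_eq_zero
    intro j _
    split_ifs with h6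
    · rw [map_zero]
    · exact h3 i i.2 j j.2 (fun h => h6 (Subtype.ext h.symm)) _ (v j).2
  · rw [eq_top_iff]
    intro x _
    rw [← h1 x]
    apply Submodule.sum_mem
    intro i hi
    exact Submodule.mem_iSup_of_mem (⟨i, hi⟩ : Finset.range (2 * w + 1)) (h2 i hi x)

variable [FiniteDimensional k V]

theorem sum_finrank (h : WeightGraded w q φ N Q) (hq : 1 < q) :
    ∑ i ∈ Finset.range (2 * w + 1), finrank k (wt φ Q i) = finrank k V := by
  classical
  rw [← Finset.sum_coe_sort]
  have h1 := h.isInternal hq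
  let b : ∀ i : Finset.range (2 * w + 1), Basis (Fin (finrank k (wt φ Q i))) k (wt φ Q i) :=
    fun i => Module.finBasis k (wt φ Q i)
  rw [Module.finrank_eq_card_basis (h1.collectedBasis b), Fintype.card_sigma]
  refine Finset.sum_congr rfl fun i _ => ?_
  rw [Fintype.card_fin]

theorem det_eq (h : WeightGraded w q φ N Q) (hq : 1 < q) :
    LinearMap.det φ = ∏ i : Finset.range (2 * w + 1),
      LinearMap.det (φ.restrict (p := wt φ Q i) (q := wt φ Q i) (fun _ hx => phi_wt hx)) :=
  det_internal (h.isInternal hq) fun i _ hx => phi_wt hx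

/-- the space of weight zero outside the range -/
theorem wt_zero (h : WeightGraded w q φ N Q) (hq : 1 < q) {i : ℕ} (hi : 2 * w < i) {x : V}
    (hx : x ∈ wt φ Q i) : x = 0 := by
  obtain ⟨j, rfl⟩ : ∃ j, i = w + j := ⟨i - w, by omega⟩
  apply h.injective j (by omega) x hx
  -- `N ^ j = 0` since `j > w`
  have h1 : ∀ m : ℕ, ∀ y ∈ wt φ Q m, (N ^ (m / 2 + 1)) y = 0 := by
    intro m
    induction m using Nat.strong_induction_on with
    | _ m ih =>
      intro y hy
      by_cases hm : m < 2
      · have : m / 2 + 1 = 1 := by omega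
        rw [this, pow_one]
        exact h.low m hm y hy
      · obtain ⟨m', rfl⟩ : ∃ m', m = m' + 2 := ⟨m - 2, by omega⟩
        have e : (m' + 2) / 2 + 1 = (m' / 2 + 1) + 1 := by omega
        rw [e, pow_succ, Module.End.mul_apply]
        exact ih m' (by omega) _ (h.lower m' y hy)
  have h2 := h1 (w + j) x hx
  have h3 : (w + j) / 2 + 1 ≤ j := by omega
  obtain ⟨d, hd⟩ := Nat.exists_eq_add_of_le h3
  rw [hd, add_comm, pow_add, Module.End.mul_apply, h2, map_zero]

/-- monodromy: the space of weight `w + j` is at most as large as the one of weight `w - j` -/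
theorem finrank_le (h : WeightGraded w q φ N Q) {j : ℕ} (hj : j ≤ w) :
    finrank k (wt φ Q (w + j)) ≤ finrank k (wt φ Q (w - j)) := by
  rcases Nat.eq_zero_or_pos j with rfl | hj0
  · simp
  have hmap : ∀ x ∈ wt φ Q (w + j), (N ^ j) x ∈ wt φ Q (w - j) := by
    intro x hx
    apply h.pow_wt j
    have : w - j + 2 * j = w + j := by omega
    rw [this]
    exact hx
  apply LinearMap.finrank_le_finrank_of_injective (f := (N ^ j).restrict hmap)
  rw [injective_iff_map_eq_zero]
  intro x hx
  apply Subtype.ext
  exact h.injective j hj0 x x.2 (congrArg Subtype.val hx)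

end

end WeightGraded

end Pool.Agent.D0H76.WM
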