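import Pool.Agent.D0H76.WM.Form
import Pool.Agent.R390.SF.Hn2

/-!
# The total weight forces the monodromy filtration to be symmetric
-/

set_option autoImplicit false
set_option linter.unusedSectionVars false

namespace Pool.Agent.D0H76.WM

open Module Polynomial

theorem aroots_le {k : Type*} [Field k] {W : Type*} [AddCommGroup W] [Module k W]
    [FiniteDimensional k W] {φ : Module.End k W} {Q : ℤ[X]} (hQ : Q.Monic) (h : aeval φ Q = 0)
    {Ω : Type*} [Field Ω] [Algebra k Ω] {n : ℕ} (hn : finrank k W ≤ n) :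
    φ.charpoly.aroots Ω ≤ ((Q ^ n).map (Int.castRingHom Ω)).roots := by
  classical
  rw [Multiset.le_iff_count]
  intro r
  by_cases hr : r ∈ φ.charpoly.aroots Ω
  · have h1 : Multiset.count r (φ.charpoly.aroots Ω) ≤ n := by
      refine (Multiset.count_le_card _ _).trans ?_
      rw [aroots_def]
      refine (Polynomial.card_roots' _).trans ?_
      rw [natDegree_map, LinearMap.charpoly_natDegree]
      exact hn
    have h2 : (Q.map (Int.castRingHom Ω)).IsRoot r := by
      rw [mem_aroots'] at hr
      have h3 : (φ.baseChange Ω).charpoly.IsRoot r := by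
        rw [LinearMap.charpoly_baseChange, IsRoot, eval_map_algebraMap]
        exact hr.2
      have h4 := (Module.End.hasEigenvalue_iff_isRoot_charpoly (φ.baseChange Ω) r).2 h3
      obtain ⟨v, hv⟩ := h4.exists_hasEigenvector
      have h5 := Module.End.aeval_apply_of_hasEigenvector (p := Q.map (Int.castRingHom Ω)) hv
      have h6 : aeval (φ.baseChange Ω) (Q.map (Int.castRingHom Ω)) = 0 := by
        have h7 : aeval (φ.baseChange Ω) (Q.map (algebraMap ℤ Ω)) = 0 := by
          rw [Polynomial.aeval_map_algebraMap]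
          have h8 : φ.baseChange Ω = Module.End.baseChangeHom k Ω W φ := rfl
          rw [h8]
          have h9 := Polynomial.aeval_algHom_apply (Module.End.baseChangeHom k Ω W) φ
            (Q.map (algebraMap ℤ k))
          rw [Polynomial.aeval_map_algebraMap, Polynomial.aeval_map_algebraMap, h, map_zero] at h9
          exact h9
        exact h7
      rw [h6, LinearMap.zero_apply] at h5
      exact (smul_eq_zero.1 h5.symm).resolve_right hv.2
    rw [Polynomial.map_pow, Polynomial.roots_pow, Multiset.count_nsmul]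
    have h3 : 1 ≤ Multiset.count r (Q.map (Int.castRingHom Ω)).roots := by
      rw [Multiset.one_le_count_iff_mem, mem_roots ((hQ.map _).ne_zero)]
      exact h2
    nlinarith
  · rw [Multiset.count_eq_zero_of_notMem hr]
    exact Nat.zero_le _

theorem sum_sym {M : Type*} [AddCommMonoid M] (g : ℕ → M) (w : ℕ) :
    ∑ i ∈ Finset.range (2 * w + 1), g i =
      g w + ∑ j ∈ Finset.range w, (g (w + (j + 1)) + g (w - (j + 1))) := by
  have h1 : 2 * w + 1 = w + (w + 1) := by ring
  rw [h1, Finset.sum_range_add, Finset.sum_range_succ', Finset.sum_add_distrib,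
    ← Finset.sum_range_reflect (fun i => g i) w, add_zero]
  have h2 : ∑ j ∈ Finset.range w, g (w - 1 - j) = ∑ j ∈ Finset.range w, g (w - (j + 1)) := by
    refine Finset.sum_congr rfl fun j _ => ?_
    congr 1
    omega
  rw [h2]
  abel

open WeightGraded in
/-- **The core.** -/
theorem pure_core {k : Type} [Field k] [CharZero k] {V : Type} [AddCommGroup V] [Module k V]
    [FiniteDimensional k V] {ι : Type} [Fintype ι] {w p : ℕ} (hp : 1 < p) (fq gq : ι → ℕ) {D : ℕ}
    (hD : 0 < D) (hf : ∀ q, fq q * gq q = D) (φ N : ι → Module.End k V) (Q : ι → ℕ → ℤ[X])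
    (h : ∀ q, WeightGraded w (p ^ fq q) (φ q) (N q) (Q q)) {e t : ℕ} (he : 0 < e)
    (hdet : ∏ q, LinearMap.det (φ q) ^ (e * gq q) = (p : k) ^ (D * t))
    (ht : 2 * t = e * (w * (Fintype.card ι * finrank k V))) :
    ∀ q, ∀ j ≤ w, finrank k (wt (φ q) (Q q) (w + j)) = finrank k (wt (φ q) (Q q) (w - j)) := by
  classical
  have hq1 : ∀ q, 1 < p ^ fq q := by
    intro q
    apply Nat.one_lt_pow _ hp
    intro h0
    have := hf q
    rw [h0, zero_mul] at this
    omega
  set n := finrank k V with hn
  let J := ι × Finset.range (2 * w + 1)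
  obtain ⟨M, hM0, hM⟩ := Pool.Agent.R390.SF.wt_gen (J := J) (fun j => (Q j.1 (j.2 : ℕ)) ^ (n + 1))
    (fun j => ((h j.1).monic _).pow _) hp (fun j => fq j.1 * (j.2 : ℕ)) (by
      intro j z hz
      have h1 : z ∈ (Q j.1 (j.2 : ℕ)).aroots ℂ := by
        rw [mem_aroots] at hz ⊢
        refine ⟨((h j.1).monic _).ne_zero, ?_⟩
        have h2 := hz.2
        rw [map_pow] at h2
        exact pow_eq_zero_iff (Nat.succ_ne_zero n) |>.1 h2
      rw [(h j.1).weight _ z h1]
      push_cast
      rw [← pow_mul]) (fun j => e * gq j.1) (D * t)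
  have hMΩ : (M : AlgebraicClosure k) ≠ 0 := by
    rw [← map_intCast (algebraMap k (AlgebraicClosure k))]
    refine (_root_.map_ne_zero _).2 ?_
    exact_mod_cast hM0
  have hW : ∀ j : J, wt (φ j.1) (Q j.1) j.2 ≤ (wt (φ j.1) (Q j.1) j.2).comap (φ j.1) :=
    fun j x hx => phi_wt hx
  have hroots := fun j : J => Pool.Agent.Y126.MD.roots_sub (Ω := AlgebraicClosure k) (hW j)
  have h5 := hM (AlgebraicClosure k) hMΩ
    (fun j => ((φ j.1).restrict (hW j)).charpoly.aroots (AlgebraicClosure k)) _ le_rfl (by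
      intro j
      apply aroots_le ((h j.1).monic _)
      · apply LinearMap.ext
        intro x
        apply Subtype.ext
        rw [aeval_int_restrict]
        exact x.2
      · exact (Submodule.finrank_le _).trans (Nat.le_succ _)) (by
      have h6 := congrArg (algebraMap k (AlgebraicClosure k)) hdet
      rw [map_prod, map_pow, map_natCast] at h6
      rw [← h6, Fintype.prod_prod_type]
      refine Finset.prod_congr rfl fun q _ => ?_
      rw [(h q).det_eq (hq1 q), map_pow, map_prod, ← Finset.prod_pow]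
      refine Finset.prod_congr rfl fun i _ => ?_
      rw [(hroots (q, i)).2.1])
  rw [Finset.sum_congr rfl fun j _ => by rw [(hroots j).2.2], Fintype.sum_prod_type] at h5
  have h6 : ∀ q, ∑ i : Finset.range (2 * w + 1), e * gq q * (fq q * (i : ℕ) *
      finrank k (wt (φ q) (Q q) i)) = D * (e * ∑ i ∈ Finset.range (2 * w + 1),
        i * finrank k (wt (φ q) (Q q) i)) := by
    intro q
    rw [Finset.sum_coe_sort (Finset.range (2 * w + 1)) (fun i => e * gq q * (fq q * i *
      finrank k (wt (φ q) (Q q) i))), Finset.mul_sum, Finset.mul_sum]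
    refine Finset.sum_congr rfl fun i _ => ?_
    rw [← hf q]
    ring
  rw [Finset.sum_congr rfl fun q _ => h6 q, ← Finset.mul_sum, ← Finset.mul_sum, mul_assoc] at h5
  have h7 := Nat.eq_of_mul_eq_mul_left hD h5
  rw [mul_comm t 2, ht] at h7
  have h8 := Nat.eq_of_mul_eq_mul_left he h7
  -- the defects
  have h9 : ∀ q, (w : ℤ) * n - (∑ i ∈ Finset.range (2 * w + 1),
      i * finrank k (wt (φ q) (Q q) i) : ℕ) = ∑ j ∈ Finset.range w, ((j : ℤ) + 1) *
        ((finrank k (wt (φ q) (Q q) (w - (j + 1))) : ℤ) -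
          finrank k (wt (φ q) (Q q) (w + (j + 1)))) := by
    intro q
    have h10 := (h q).sum_finrank (hq1 q)
    rw [← hn] at h10
    rw [← h10, sum_sym, sum_sym]
    push_cast
    rw [mul_add, Finset.mul_sum]
    have h11 : ∀ j ∈ Finset.range w, ((w - (j + 1) : ℕ) : ℤ) = (w : ℤ) - (j + 1) := by
      intro j hj
      rw [Finset.mem_range] at hj
      omega
    rw [add_sub_add_left_eq_sub, ← Finset.sum_sub_distrib]
    refine Finset.sum_congr rfl fun j hj => ?_
    rw [h11 j hj]
    ring
  have hle : ∀ q, ∀ j ∈ Finset.range w, (0 : ℤ) ≤ ((j : ℤ) + 1) *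
        ((finrank k (wt (φ q) (Q q) (w - (j + 1))) : ℤ) -
          finrank k (wt (φ q) (Q q) (w + (j + 1)))) := by
    intro q j hj
    rw [Finset.mem_range] at hj
    have h10 := (h q).finrank_le (j := j + 1) (by omega)
    have h11 : (0 : ℤ) ≤ (finrank k (wt (φ q) (Q q) (w - (j + 1))) : ℤ) -
          finrank k (wt (φ q) (Q q) (w + (j + 1))) := by omega
    positivity
  have h12 : ∑ q, ∑ j ∈ Finset.range w, ((j : ℤ) + 1) *
        ((finrank k (wt (φ q) (Q q) (w - (j + 1))) : ℤ) -
          finrank k (wt (φ q) (Q q) (w + (j + 1)))) = 0 := by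
    rw [← Finset.sum_congr rfl fun q _ => h9 q, Finset.sum_sub_distrib, ← Nat.cast_sum, ← h8,
      Finset.sum_const, Finset.card_univ]
    push_cast
    ring
  have h13 := (Finset.sum_eq_zero_iff_of_nonneg fun q _ => Finset.sum_nonneg (hle q)).1 h12
  intro q j hj
  rcases Nat.eq_zero_or_pos j with rfl | hj0
  · simp
  obtain ⟨i, rfl⟩ : ∃ i, j = i + 1 := ⟨j - 1, by omega⟩
  have h14 := (Finset.sum_eq_zero_iff_of_nonneg (hle q)).1 (h13 q (Finset.mem_univ q)) i
    (Finset.mem_range.2 (by omega))
  have h15 : ((i : ℤ) + 1) ≠ 0 := by positivity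
  have h16 := (mul_eq_zero.1 h14).resolve_left h15
  omega

end Pool.Agent.D0H76.WM
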