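import Pool.Agent.D0H76.WM.Alg

/-!
# Isotropic subspaces and the primitive parts of the monodromy operator
-/

set_option autoImplicit false
set_option linter.unusedSectionVars false

namespace Pool.Agent.D0H76.WM

open Module Polynomial

/-- The form `B` is anisotropic on the primitive parts of the monodromy operator `N`, for the
subspaces which are stable under the Frobenius `φ`: if `N ^ (m + 1) x = 0` and
`B x (N ^ m φ ^ i x) = 0` for all `i`, then `x` lies in `ker N ^ m + N (ker N ^ (m + 2))`. (The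
quotient of `ker N ^ (m + 1)` by this subspace has the dimension of the number of the Jordan blocks of
size `m + 1`, and `B x (N ^ m y)` is a nondegenerate form on it.) -/
def Anisotropic {k V : Type*} [Field k] [AddCommGroup V] [Module k V]
    (B : V →ₗ[k] V →ₗ[k] k) (φ N : Module.End k V) : Prop :=
  ∀ (m : ℕ) (x : V), (N ^ (m + 1)) x = 0 → (∀ i : ℕ, B x ((N ^ m) ((φ ^ i) x)) = 0) →
    ∃ u z : V, (N ^ m) u = 0 ∧ (N ^ (m + 2)) z = 0 ∧ x = u + N z

/-- There is at most one Jordan block of each size: `2 dim ker N ^ (m + 1) - dim ker N ^ m -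
dim ker N ^ (m + 2)` is the number of the Jordan blocks of size `m + 1` of the nilpotent
endomorphism `N`. -/
def DistinctBlocks {k V : Type*} [Field k] [AddCommGroup V] [Module k V] (N : Module.End k V) :
    Prop :=
  ∀ m : ℕ, 2 * finrank k (LinearMap.ker (N ^ (m + 1))) ≤
    finrank k (LinearMap.ker (N ^ m)) + finrank k (LinearMap.ker (N ^ (m + 2))) + 1

section nilp

variable {k V : Type*} [Field k] [AddCommGroup V] [Module k V] [FiniteDimensional k V]
  {B : V →ₗ[k] V →ₗ[k] k} {N : Module.End k V}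

theorem skew_pow (hs : ∀ x y, B (N x) y = - B x (N y)) (m : ℕ) (x y : V) :
    B ((N ^ m) x) y = (-1) ^ m * B x ((N ^ m) y) := by
  induction m generalizing x y with
  | zero => simp
  | succ m ih =>
    have e : (N ^ (m + 1)) y = N ((N ^ m) y) := by rw [pow_succ', Module.End.mul_apply]
    rw [e, pow_succ N, Module.End.mul_apply, ih, hs]
    ring

/-- the form on the primitive part is nondegenerate -/
theorem prim_nondeg (hB : ∀ x, (∀ y, B x y = 0) → x = 0) (hs : ∀ x y, B (N x) y = - B x (N y))
    {m : ℕ} {y : V} (hy : (N ^ (m + 1)) y = 0)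
    (h : ∀ x, (N ^ (m + 1)) x = 0 → B x ((N ^ m) y) = 0) :
    ∃ u z : V, (N ^ m) u = 0 ∧ (N ^ (m + 2)) z = 0 ∧ y = u + N z := by
  classical
  have h1 : (N ^ m) y ∈ LinearMap.range (N ^ (m + 1)) := by
    by_contra hcon
    obtain ⟨f, hf1, hf2⟩ := Submodule.exists_dual_map_eq_bot_of_notMem hcon inferInstance
    have hinj : Function.Injective B := by
      rw [injective_iff_map_eq_zero]
      intro x hx
      exact hB x fun y => by rw [hx]; rfl
    have hsurj : Function.Surjective B :=
      (LinearMap.injective_iff_surjective_of_finrank_eq_finrank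
        (Subspace.dual_finrank_eq (K := k) (V := V)).symm).1 hinj
    obtain ⟨x, rfl⟩ := hsurj f
    apply hf1
    apply h
    apply hB
    intro z
    rw [skew_pow hs]
    have h3 : B x ((N ^ (m + 1)) z) ∈ (LinearMap.range (N ^ (m + 1))).map (B x) :=
      Submodule.mem_map_of_mem (LinearMap.mem_range_self _ z)
    rw [hf2, Submodule.mem_bot] at h3
    rw [h3, mul_zero]
  obtain ⟨z, hz⟩ := h1
  refine ⟨y - N z, z, ?_, ?_, by abel⟩
  · rw [map_sub, ← hz, pow_succ, Module.End.mul_apply, sub_self]
  · rw [show m + 2 = (m + 1) + 1 from rfl, pow_succ', Module.End.mul_apply, hz,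
      ← Module.End.mul_apply, ← pow_succ', hy]

/-- distinct Jordan blocks: any two elements of the primitive part are proportional -/
theorem prim_dep (hd : DistinctBlocks N) {m : ℕ} {x y : V} (hx : (N ^ (m + 1)) x = 0)
    (hy : (N ^ (m + 1)) y = 0) : (∃ u z : V, (N ^ m) u = 0 ∧ (N ^ (m + 2)) z = 0 ∧ x = u + N z) ∨
      ∃ (a : k) (u z : V), (N ^ m) u = 0 ∧ (N ^ (m + 2)) z = 0 ∧ y = a • x + (u + N z) := by
  classical
  set L := LinearMap.ker (N ^ (m + 1)) with hL
  set R : Submodule k V := LinearMap.ker (N ^ m) ⊔ (LinearMap.ker (N ^ (m + 2))).map N with hR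
  have hRL : R ≤ L := by
    rw [hR, sup_le_iff]
    constructor
    · intro v hv
      rw [LinearMap.mem_ker] at hv ⊢
      rw [pow_succ', Module.End.mul_apply, hv, map_zero]
    · rintro v ⟨v', hv', rfl⟩
      rw [SetLike.mem_coe, LinearMap.mem_ker] at hv'
      rw [LinearMap.mem_ker, ← Module.End.mul_apply, ← pow_succ]
      exact hv'
  have hmemR : ∀ v ∈ R, ∃ u z : V, (N ^ m) u = 0 ∧ (N ^ (m + 2)) z = 0 ∧ v = u + N z := by
    intro v hv
    rw [hR, Submodule.mem_sup] at hv
    obtain ⟨u, hu, v', ⟨z, hz, rfl⟩, rfl⟩ := hv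
    exact ⟨u, z, LinearMap.mem_ker.1 hu, LinearMap.mem_ker.1 hz, rfl⟩
  -- dimension of `R`
  have hdimN : ∀ i : ℕ, finrank k ((LinearMap.ker (N ^ (i + 1))).map N) + finrank k (LinearMap.ker N)
      = finrank k (LinearMap.ker (N ^ (i + 1))) := by
    intro i
    have h1 := LinearMap.finrank_range_add_finrank_ker (N.domRestrict (LinearMap.ker (N ^ (i + 1))))
    rw [LinearMap.range_domRestrict] at h1
    rw [← h1]
    congr 1
    have h2 : LinearMap.ker N ≤ LinearMap.ker (N ^ (i + 1)) := by
      intro v hv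
      rw [LinearMap.mem_ker] at hv ⊢
      rw [pow_succ, Module.End.mul_apply, hv, map_zero]
    rw [LinearMap.ker_domRestrict]
    exact (LinearEquiv.finrank_eq (Submodule.comapSubtypeEquivOfLe h2)).symm
  have hinf : LinearMap.ker (N ^ m) ⊓ (LinearMap.ker (N ^ (m + 2))).map N =
      (LinearMap.ker (N ^ (m + 1))).map N := by
    ext v
    constructor
    · rintro ⟨hv, z, hz, rfl⟩
      refine ⟨z, ?_, rfl⟩
      rw [SetLike.mem_coe, LinearMap.mem_ker, pow_succ, Module.End.mul_apply]
      exact LinearMap.mem_ker.1 hv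
    · rintro ⟨z, hz, rfl⟩
      rw [SetLike.mem_coe, LinearMap.mem_ker] at hz
      refine ⟨?_, z, ?_, rfl⟩
      · rw [SetLike.mem_coe, LinearMap.mem_ker, ← Module.End.mul_apply, ← pow_succ]
        exact hz
      · rw [SetLike.mem_coe, LinearMap.mem_ker, pow_succ', Module.End.mul_apply, hz, map_zero]
  have h1 := Submodule.finrank_sup_add_finrank_inf_eq (LinearMap.ker (N ^ m))
    ((LinearMap.ker (N ^ (m + 2))).map N)
  rw [hinf, ← hR] at h1
  have h2 := hdimN m
  have h3 := hdimN (m + 1)
  have h4 := hd m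
  have h5 : finrank k L ≤ finrank k R + 1 := by
    rw [hL]
    show finrank k (LinearMap.ker (N ^ (m + 1))) ≤ _
    have e : m + 1 + 1 = m + 2 := rfl
    rw [e] at h3
    omega
  by_cases hxR : x ∈ R
  · exact Or.inl (hmemR x hxR)
  · right
    have h6 : R ⊔ Submodule.span k {x} = L := by
      apply Submodule.eq_of_le_of_finrank_le
      · rw [sup_le_iff]
        refine ⟨hRL, ?_⟩
        rw [Submodule.span_singleton_le_iff_mem]
        exact LinearMap.mem_ker.2 hx
      · have h7 : R < R ⊔ Submodule.span k {x} := by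
          rw [left_lt_sup, Submodule.span_singleton_le_iff_mem]
          exact hxR
        have h8 := Submodule.finrank_lt_finrank_of_lt h7
        omega
    have h7 : y ∈ R ⊔ Submodule.span k {x} := by
      rw [h6]
      exact LinearMap.mem_ker.2 hy
    rw [Submodule.mem_sup] at h7
    obtain ⟨r, hr, s, hs, rfl⟩ := h7
    obtain ⟨a, rfl⟩ := Submodule.mem_span_singleton.1 hs
    obtain ⟨u, z, hu, hz, rfl⟩ := hmemR r hr
    exact ⟨a, u, z, hu, hz, by abel⟩

/-- **Distinct Jordan blocks** -/
theorem anisotropic_of_distinct (hB : ∀ x, (∀ y, B x y = 0) → x = 0)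
    (hs : ∀ x y, B (N x) y = - B x (N y)) {ε : k} (hsym : ∀ x y, B x y = ε * B y x)
    (hd : DistinctBlocks N) (φ : Module.End k V) : Anisotropic B φ N := by
  intro m x hx hiso
  by_contra hcon
  apply hcon
  apply prim_nondeg hB hs hx
  intro y hy
  have h0 := hiso 0
  rw [pow_zero, Module.End.one_apply] at h0
  rcases prim_dep hd hx hy with h | ⟨a, u, z, hu, hz, rfl⟩
  · exact absurd h hcon
  · have e1 : B u ((N ^ m) x) = 0 := by
      have h1 := skew_pow hs m u x
      rw [hu, map_zero, LinearMap.zero_apply] at h1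
      have h2 : ((-1 : k) ^ m) ≠ 0 := pow_ne_zero _ (by simp)
      exact ((mul_eq_zero.1 h1.symm).resolve_left h2)
    have e2 : B (N z) ((N ^ m) x) = 0 := by
      rw [hs, ← Module.End.mul_apply, ← pow_succ', hx, map_zero, neg_zero]
    rw [map_add, map_add, LinearMap.add_apply, LinearMap.add_apply, e1, e2, map_smul,
      LinearMap.smul_apply, h0, smul_zero, add_zero, add_zero]

end nilp

namespace WeightGraded

section

variable {k V : Type*} [Field k] [CharZero k] [AddCommGroup V] [Module k V] {w q : ℕ}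
  {φ N : Module.End k V} {Q : ℕ → ℤ[X]}

/-- the components -/
theorem exists_comp (h : WeightGraded w q φ N Q) (hq : 1 < q) : ∃ c : ℕ → Module.End k V,
    (∀ i x, c i x ∈ wt φ Q i) ∧ (∀ i, ∀ x ∈ wt φ Q i, c i x = x) ∧
    (∀ i, 2 * w < i → ∀ x, c i x = 0) ∧ (∀ i j x, c i ((N ^ j) x) = (N ^ j) (c (i + 2 * j) x)) ∧
    (∀ x, ∑ i ∈ Finset.range (2 * w + 1), c i x = x) ∧
    (∀ (W : Submodule k V), (∀ x ∈ W, φ x ∈ W) → ∀ i, ∀ x ∈ W, c i x ∈ W) := by
  classical
  obtain ⟨e, h1, h2, h3⟩ := h.exists_proj hq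
  have hz : ∀ i, 2 * w < i → ∀ x ∈ wt φ Q i, x = 0 := by
    intro i hi x hx
    obtain ⟨j, rfl⟩ : ∃ j, i = w + j := ⟨i - w, by omega⟩
    apply h.injective j (by omega) x hx
    have h1 : ∀ m : ℕ, ∀ y ∈ wt φ Q m, (N ^ (m / 2 + 1)) y = 0 := by
      intro m
      induction m using Nat.strong_induction_on with
      | _ m ih =>
        intro y hy
        by_cases hm : m < 2
        · have : m / 2 + 1 = 1 := by omega
          rw [this, pow_one]
          exact h.low m hm y hy
        · obtain ⟨m', rfl⟩ : ∃ m', m = m' + 2 := ⟨m - 2, by omega⟩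
          have e : (m' + 2) / 2 + 1 = (m' / 2 + 1) + 1 := by omega
          rw [e, pow_succ, Module.End.mul_apply]
          exact ih m' (by omega) _ (h.lower m' y hy)
    have h2 := h1 (w + j) x hx
    have h3 : (w + j) / 2 + 1 ≤ j := by omega
    obtain ⟨d, hd⟩ := Nat.exists_eq_add_of_le h3
    rw [hd, add_comm, pow_add, Module.End.mul_apply, h2, map_zero]
  let c : ℕ → Module.End k V := fun i => if i ∈ Finset.range (2 * w + 1) then aeval φ (e i) else 0
  have hc1 : ∀ i ∈ Finset.range (2 * w + 1), c i = aeval φ (e i) := fun i hi => if_pos hi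
  have hc0 : ∀ i, i ∉ Finset.range (2 * w + 1) → c i = 0 := fun i hi => if_neg hi
  have hmem : ∀ i x, c i x ∈ wt φ Q i := by
    intro i x
    by_cases hi : i ∈ Finset.range (2 * w + 1)
    · rw [hc1 i hi]; exact h2 i hi x
    · rw [hc0 i hi, LinearMap.zero_apply]; exact Submodule.zero_mem _
  have hsum : ∀ x, ∑ i ∈ Finset.range (2 * w + 1), c i x = x := by
    intro x
    calc ∑ i ∈ Finset.range (2 * w + 1), c i x
        = ∑ i ∈ Finset.range (2 * w + 1), aeval φ (e i) x :=
          Finset.sum_congr rfl fun i hi => by rw [hc1 i hi]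
      _ = x := h1 x
  have horth : ∀ i i', i ≠ i' → ∀ x ∈ wt φ Q i', c i x = 0 := by
    intro i i' hne x hx
    by_cases hi : i ∈ Finset.range (2 * w + 1)
    · by_cases hi' : i' ∈ Finset.range (2 * w + 1)
      · rw [hc1 i hi]; exact h3 i hi i' hi' hne x hx
      · have h4 : 2 * w < i' := by
          rw [Finset.mem_range] at hi'
          omega
        rw [hz i' h4 x hx, map_zero]
    · rw [hc0 i hi, LinearMap.zero_apply]
  have hid : ∀ i, ∀ x ∈ wt φ Q i, c i x = x := by
    intro i x hx
    by_cases hi : i ∈ Finset.range (2 * w + 1)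
    · have h4 := hsum x
      rw [Finset.sum_eq_single i] at h4
      · exact h4
      · intro j _ hji
        exact horth j i hji x hx
      · intro h; exact absurd hi h
    · have h4 : 2 * w < i := by
        rw [Finset.mem_range] at hi
        omega
      rw [hz i h4 x hx, map_zero]
  have hcomm : ∀ i x, c i (N x) = N (c (i + 2) x) := by
    intro i x
    conv_lhs => rw [← hsum x]
    rw [map_sum, map_sum]
    by_cases hi : i + 2 ∈ Finset.range (2 * w + 1)
    · rw [Finset.sum_eq_single (i + 2)]
      · exact hid i _ (h.lower i _ (hmem (i + 2) x))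
      · intro j _ hji
        by_cases hj : j < 2
        · rw [h.low j hj _ (hmem j x), map_zero]
        · obtain ⟨j', rfl⟩ : ∃ j', j = j' + 2 := ⟨j - 2, by omega⟩
          exact horth i j' (by omega) _ (h.lower j' _ (hmem (j' + 2) x))
      · intro h; exact absurd hi h
    · rw [hc0 (i + 2) hi, LinearMap.zero_apply, map_zero]
      apply Finset.sum_eq_zero
      intro j hj
      by_cases hj2 : j < 2
      · rw [h.low j hj2 _ (hmem j x), map_zero]
      · obtain ⟨j', rfl⟩ : ∃ j', j = j' + 2 := ⟨j - 2, by omega⟩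
        have hne : i ≠ j' := by
          rintro rfl
          exact hi hj
        exact horth i j' hne _ (h.lower j' _ (hmem (j' + 2) x))
  refine ⟨c, hmem, hid, ?_, ?_, hsum, ?_⟩
  · intro i hi x
    rw [hc0 i (by rw [Finset.mem_range]; omega), LinearMap.zero_apply]
  · intro i j x
    induction j generalizing i x with
    | zero => simp
    | succ j ih =>
      rw [pow_succ', Module.End.mul_apply, hcomm, ih, Module.End.mul_apply]
      congr 3
      ring
  · intro W hW i x hx
    by_cases hi : i ∈ Finset.range (2 * w + 1)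
    · rw [hc1 i hi]
      generalize e i = P
      induction P using Polynomial.induction_on' with
      | add p q hp hq =>
        rw [map_add, LinearMap.add_apply]
        exact W.add_mem hp hq
      | monomial n a =>
        rw [aeval_monomial, Module.End.mul_apply]
        have h4 : ∀ (m : ℕ), (φ ^ m) x ∈ W := by
          intro m
          induction m with
          | zero => exact hx
          | succ m ih =>
            rw [pow_succ', Module.End.mul_apply]
            exact hW _ ih
        exact W.smul_mem _ (h4 n)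
    · rw [hc0 i hi, LinearMap.zero_apply]; exact W.zero_mem

/-- elements of low weight are killed by powers of `N` -/
theorem pow_low (h : WeightGraded w q φ N Q) {m j : ℕ} (hj : m < 2 * j) {y : V}
    (hy : y ∈ wt φ Q m) : (N ^ j) y = 0 := by
  induction j generalizing m y with
  | zero => omega
  | succ j ih =>
    rw [pow_succ, Module.End.mul_apply]
    by_cases hm : m < 2
    · rw [h.low m hm y hy, map_zero]
    · obtain ⟨m', rfl⟩ : ∃ m', m = m' + 2 := ⟨m - 2, by omega⟩
      exact ih (by omega) (h.lower m' y hy)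

/-- **There are no pure isotropic subspaces.** -/
theorem no_isotropic (h : WeightGraded w q φ N Q) (hq : 1 < q) {B : V →ₗ[k] V →ₗ[k] k}
    (ha : Anisotropic B φ N) {W : Submodule k V} (hφ : ∀ x ∈ W, φ x ∈ W) (hN : ∀ x ∈ W, N x ∈ W)
    (hiso : ∀ x ∈ W, ∀ y ∈ W, B x y = 0)
    (hsym : ∀ j ≤ w, wt φ Q (w + j) ⊓ W = ⊥ ↔ wt φ Q (w - j) ⊓ W = ⊥) : W = ⊥ := by
  classical
  obtain ⟨c, hc1, hc2, hc3, hc4, hc5, hc6⟩ := h.exists_comp hq
  by_contra hW
  -- some weight space of `W` is not zero
  have hex : ∃ i ∈ Finset.range (2 * w + 1), wt φ Q i ⊓ W ≠ ⊥ := by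
    by_contra hcon
    push Not at hcon
    apply hW
    rw [eq_bot_iff]
    intro x hx
    rw [← hc5 x]
    apply Submodule.sum_mem
    intro i hi
    rw [← hcon i hi]
    exact ⟨hc1 i x, hc6 W hφ i x hx⟩
  -- the largest weight
  set s := (Finset.range (2 * w + 1)).filter (fun i => wt φ Q i ⊓ W ≠ ⊥) with hs
  have hsne : s.Nonempty := by
    obtain ⟨i, hi, hi'⟩ := hex
    exact ⟨i, Finset.mem_filter.2 ⟨hi, hi'⟩⟩
  set t := s.max' hsne with ht
  have ht1 : t ∈ s := s.max'_mem hsne
  have ht2 : ∀ i, t < i → wt φ Q i ⊓ W = ⊥ := by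
    intro i hi
    by_cases hi' : i ∈ Finset.range (2 * w + 1)
    · by_contra hcon
      have := s.le_max' i (Finset.mem_filter.2 ⟨hi', hcon⟩)
      omega
    · rw [Finset.mem_range] at hi'
      rw [eq_bot_iff]
      rintro x ⟨hx, -⟩
      rw [Submodule.mem_bot, ← hc2 i x hx]
      exact hc3 i (by omega) x
  obtain ⟨htr, htne⟩ := Finset.mem_filter.1 ht1
  rw [Finset.mem_range] at htr
  have htw : w ≤ t := by
    by_contra hcon
    have h1 := hsym (w - t) (by omega)
    have e1 : w - (w - t) = t := by omega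
    rw [e1] at h1
    exact htne (h1.1 (ht2 _ (by omega)))
  obtain ⟨j, hj⟩ : ∃ j, t = w + j := ⟨t - w, by omega⟩
  rw [hj] at ht2 htne htr
  have hjw : j ≤ w := by omega
  obtain ⟨x, ⟨hx1, hx2⟩, hx0⟩ := (Submodule.ne_bot_iff _).1 htne
  apply hx0
  have hNW : ∀ (m : ℕ), ∀ y ∈ W, (N ^ m) y ∈ W := by
    intro m
    induction m with
    | zero => intro y hy; exact hy
    | succ m ih =>
      intro y hy
      rw [pow_succ', Module.End.mul_apply]
      exact hN _ (ih y hy)
  have hφW : ∀ (m : ℕ), ∀ y ∈ W, (φ ^ m) y ∈ W := by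
    intro m
    induction m with
    | zero => intro y hy; exact hy
    | succ m ih =>
      intro y hy
      rw [pow_succ', Module.End.mul_apply]
      exact hφ _ (ih y hy)
  have h1 : (N ^ (j + 1)) x = 0 := by
    by_cases hj2 : j + 2 ≤ w
    · have h2 : (N ^ (j + 1)) x ∈ wt φ Q (w - (j + 2)) ⊓ W := by
        refine ⟨?_, hNW _ x hx2⟩
        apply h.pow_wt
        have e : w - (j + 2) + 2 * (j + 1) = w + j := by omega
        rw [e]
        exact hx1
      rw [(hsym (j + 2) hj2).1 (ht2 _ (by omega)), Submodule.mem_bot] at h2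
      exact h2
    · exact h.pow_low (by omega) hx1
  obtain ⟨u, z, hu, hz, hxuz⟩ := ha j x h1 fun i =>
    hiso x hx2 _ (hNW j _ (hφW i x hx2))
  have h2 : c (w + j) u = 0 := by
    rcases Nat.eq_zero_or_pos j with rfl | hj0
    · rw [pow_zero, Module.End.one_apply] at hu
      rw [hu, map_zero]
    · apply h.injective j hj0 _ (hc1 _ u)
      have h3 := hc4 (w - j) j u
      rw [hu, map_zero] at h3
      have e : w - j + 2 * j = w + j := by omega
      rw [e] at h3
      exact h3.symm
  have h3 : c (w + j + 2) z = 0 := by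
    by_cases hj2 : j + 2 ≤ w
    · have h4 := hc4 (w - (j + 2)) (j + 2) z
      rw [hz, map_zero] at h4
      have e : w - (j + 2) + 2 * (j + 2) = w + (j + 2) := by omega
      rw [e] at h4
      exact h.injective (j + 2) (by omega) _ (hc1 _ z) h4.symm
    · exact hc3 _ (by omega) z
  have h4 := hc4 (w + j) 1 z
  rw [pow_one, mul_one, h3, map_zero] at h4
  rw [← hc2 _ x hx1]
  conv_lhs => rw [hxuz]
  rw [map_add, h2, h4, add_zero]

end

end WeightGraded

end Pool.Agent.D0H76.WM
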