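import Pool.Agent.D0H76.WM.Core

/-!
# The monodromy operators at the places above `p` of a polarized pure `ℓ`-adic representation
-/

set_option autoImplicit false
set_option linter.unusedSectionVars false

namespace Pool.Agent.D0H76.WM

open Module Polynomial NumberField Pool.Agent.Y800 Pool.Agent.R390.SF

attribute [local instance] Subgroup.fintypeQuotientOfFiniteIndex

variable {F : SubFld ℚ} {ℓ w : ℕ} [hℓ : Fact ℓ.Prime] {h : ℕ → ℕ}
  {k : Type} [NormedField k] [NormedAlgebra ℚ_[ℓ] k]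
  {Γ : Type} [Group Γ] {n : ℕ}

/-- the action of `σ` on `k ^ n` -/
noncomputable def act (A : MotivicRep F ℓ w h k Γ n) (σ : F.fixingSubgroup) :
    Module.End k (Fin n → k) := Matrix.toLin' (A.ρ (A.θ σ)).1

/-- the matrix `N` is in the algebra generated by the inertia group at `P` -/
def InertiaAlgebra (A : MotivicRep F ℓ w h k Γ n) (P : Ideal ZBar)
    (N : Matrix (Fin n) (Fin n) k) : Prop :=
  N ∈ Algebra.adjoin k {x : Matrix (Fin n) (Fin n) k |
    ∃ τ : F.fixingSubgroup, InInertia P τ ∧ x = A.ρ (A.θ τ)}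

/-- The matrix `N` is the monodromy operator of the representation `A` at the maximal ideal `P` of
`ZBar` above the prime number `p`, and the weight-monodromy conjecture holds: `N` is a linear
combination of the images of the elements of the inertia group, it is antisymmetric for the
polarization, and for each geometric Frobenius element `σ` at `P` in the Galois group of `F`, of
degree `f`, the pair of `ρ σ` and `N` is `WeightGraded`. -/
structure MonodromyAt (A : MotivicRep F ℓ w h k Γ n) (p : ℕ) (P : Ideal ZBar)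
    (N : Matrix (Fin n) (Fin n) k) : Prop where
  mem : InertiaAlgebra A P N
  skew : N.transpose * A.J = -(A.J * N)
  graded : ∀ f : ℕ, 0 < f → ∀ σ : F.fixingSubgroup, IsGeomFrob (p ^ f) P σ →
    ∃ Q : ℕ → ℤ[X], WeightGraded w (p ^ f) (act A σ) (Matrix.toLin' N) Q

/-- the matrices `N P` are the monodromy operators at the places `P` above `p`, and the
weight-monodromy conjecture holds at these places -/
def HasMonodromy (A : MotivicRep F ℓ w h k Γ n) (p : ℕ)
    (N : Ideal ZBar → Matrix (Fin n) (Fin n) k) : Prop :=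
  ∀ P : Ideal ZBar, P.IsMaximal → (p : ZBar) ∈ P → MonodromyAt A p P (N P)

/-- the bilinear form of the polarization -/
noncomputable def form (A : MotivicRep F ℓ w h k Γ n) : (Fin n → k) →ₗ[k] (Fin n → k) →ₗ[k] k :=
  Matrix.toBilin' A.J

/-- for a geometric Frobenius element `σ` at `P` the polarization is anisotropic on the primitive
parts of `N` -/
def AnisotropicAt (A : MotivicRep F ℓ w h k Γ n) (p : ℕ) (P : Ideal ZBar)
    (N : Matrix (Fin n) (Fin n) k) : Prop :=
  ∃ f : ℕ, 0 < f ∧ ∃ σ : F.fixingSubgroup, IsGeomFrob (p ^ f) P σ ∧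
    Anisotropic (form A) (act A σ) (Matrix.toLin' N)

/-- the representation of the Galois group of `F` on `k ^ n` has no stable subspaces -/
def Irreducible (A : MotivicRep F ℓ w h k Γ n) : Prop :=
  ∀ U : Submodule k (Fin n → k), IsStable (A.ρ.comp A.θ) U → U = ⊥ ∨ U = ⊤

section basic

variable {A : MotivicRep F ℓ w h k Γ n} {p : ℕ} {P : Ideal ZBar} {N : Matrix (Fin n) (Fin n) k}

theorem MonodromyAt.stable (hN : MonodromyAt A p P N) {U : Submodule k (Fin n → k)}
    (hU : IsStable (A.ρ.comp A.θ) U) : ∀ x ∈ U, N.mulVec x ∈ U := by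
  have h1 : ∀ M ∈ Algebra.adjoin k {x : Matrix (Fin n) (Fin n) k |
      ∃ τ : F.fixingSubgroup, InInertia P τ ∧ x = A.ρ (A.θ τ)}, ∀ x ∈ U, M.mulVec x ∈ U := by
    intro M hM
    induction hM using Algebra.adjoin_induction with
    | mem M hM =>
      obtain ⟨τ, _, rfl⟩ := hM
      exact hU τ
    | algebraMap r =>
      intro x hx
      rw [Algebra.algebraMap_eq_smul_one, Matrix.smul_mulVec, Matrix.one_mulVec]
      exact U.smul_mem r hx
    | add a b _ _ ha hb =>
      intro x hx
      rw [Matrix.add_mulVec]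
      exact U.add_mem (ha x hx) (hb x hx)
    | mul a b _ _ ha hb =>
      intro x hx
      rw [← Matrix.mulVec_mulVec]
      exact ha _ (hb x hx)
  exact h1 N hN.mem

end basic

open WeightGraded in
/-- the weight space of the restriction -/
theorem finrank_wt_restrict {k V : Type*} [Field k] [AddCommGroup V] [Module k V]
    {U : Submodule k V} {φ : Module.End k V} (hU : ∀ x ∈ U, φ x ∈ U) (Q : ℕ → ℤ[X]) (i : ℕ) :
    finrank k (wt (φ.restrict hU) Q i) = finrank k (wt φ Q i ⊓ U : Submodule k V) := by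
  have h1 : (wt (φ.restrict hU) Q i).map U.subtype = wt φ Q i ⊓ U := by
    ext x
    constructor
    · rintro ⟨y, hy, rfl⟩
      refine ⟨?_, y.2⟩
      have h2 : aeval (φ.restrict hU) (Q i) y = 0 := hy
      have h3 := congrArg Subtype.val h2
      rw [aeval_int_restrict] at h3
      exact h3
    · rintro ⟨hx, hxU⟩
      refine ⟨⟨x, hxU⟩, ?_, rfl⟩
      show aeval (φ.restrict hU) (Q i) ⟨x, hxU⟩ = 0
      apply Subtype.ext
      rw [aeval_int_restrict]
      exact hx
  rw [← h1]
  exact (LinearEquiv.finrank_eq (Submodule.equivMapOfInjective _ (Submodule.injective_subtype U) _))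

section glob

variable [hF : FiniteDimensional ℚ F] [IsUltrametricDist k]

/-- every maximal ideal above `p` has geometric Frobenius elements -/
theorem exists_geom_at {p : ℕ} (hp : p.Prime) {P : Ideal ZBar} (hP : P.IsMaximal)
    (hpP : (p : ZBar) ∈ P) : ∃ σ : GQ, IsGeomFrob p P σ := by
  obtain ⟨P', σ, hP', hpP', hσ⟩ := exists_geom hp
  obtain ⟨x, rfl⟩ := exists_cj hp hP' hpP' hP hpP
  exact ⟨_, cj_frob hσ⟩

open WeightGraded in
/-- **Global purity of the monodromy filtration of a stable subspace.** -/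
theorem pure_sub (A : MotivicRep F ℓ w h k Γ n) {p : ℕ} (hp : p.Prime) (hpℓ : ℓ ≠ p)
    (N : Ideal ZBar → Matrix (Fin n) (Fin n) k)
    (hN : HasMonodromy A p N)
    {U : Submodule k (Fin n → k)} (hU : IsStable (A.ρ.comp A.θ) U)
    {P : Ideal ZBar} (hP : P.IsMaximal) (hpP : (p : ZBar) ∈ P) {f : ℕ} (hf : 0 < f)
    {σ : F.fixingSubgroup} (hσ : IsGeomFrob (p ^ f) P σ) {Q : ℕ → ℤ[X]}
    (hQ : WeightGraded w (p ^ f) (Matrix.toLin' (A.ρ (A.θ σ)).1) (Matrix.toLin' (N P)) Q)
    {j : ℕ} (hj : j ≤ w) :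
    finrank k (wt (Matrix.toLin' (A.ρ (A.θ σ)).1) Q (w + j) ⊓ U : Submodule k (Fin n → k)) =
      finrank k (wt (Matrix.toLin' (A.ρ (A.θ σ)).1) Q (w - j) ⊓ U : Submodule k (Fin n → k)) := by
  classical
  have : CharZero k := charZero_of_injective_algebraMap (algebraMap ℚ_[ℓ] k).injective
  obtain ⟨P₀, _, hP₀, hℓP₀, _⟩ := exists_geom hℓ.out
  set ψ := coef ℓ k with hψdef
  have hψ : Continuous ψ := continuous_coef
  set δ := detChar (A.ρ.comp A.θ) U hU with hδ
  let a : Ideal (𝓞 F) → ℕ := fun 𝔩 =>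
    A.e * ∑ r ∈ Finset.range (w + 1), r * A.m 𝔩 U r
  have h1 : ∀ p : ℕ, p.Prime → ℓ ≠ p → ∀ P : Ideal ZBar, P.IsMaximal → (p : ZBar) ∈ P →
      ∀ τ : F.fixingSubgroup, InInertia P τ → (δ ^ A.e) τ = 1 := by
    intro p hp hpℓ P hP hpP τ hτ
    rw [MonoidHom.pow_apply, ← map_pow]
    apply detChar_unip
    have h2 := A.motivic.monodromy p hp hpℓ P hP hpP τ hτ
    rw [map_pow, Units.val_pow_eq_pow_val]
    exact h2
  have h2 : ∀ P : Ideal ZBar, P.IsMaximal → (ℓ : ZBar) ∈ P → ∀ τ : F.fixingSubgroup,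
      InInertia P τ → (δ ^ A.e) τ * chik ψ τ ^ a (P.under (𝓞 F)) = 1 := by
    intro P hP hℓP τ hτ
    have h3 : (P.under (𝓞 F)).IsMaximal := under_max hP
    have h4 : (ℓ : 𝓞 F) ∈ P.under (𝓞 F) := by
      rw [mem_under, map_natCast]
      exact hℓP
    have h5 := det_of_weight ((A.motivic.hodgeTate _ h3 h4).det U) hU hP rfl hτ
    apply Units.ext
    rw [MonoidHom.pow_apply, Units.val_mul, Units.val_pow_eq_pow_val, Units.val_pow_eq_pow_val,
      Units.val_one, hδ, detChar_val]
    rw [mul_pow, ← pow_mul, mul_comm (∑ r ∈ Finset.range (w + 1), _)] at h5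
    exact h5
  have hcδ : Continuous fun g => ((δ ^ A.e) g : k) := by
    have h3 : (fun g => ((δ ^ A.e) g : k)) = fun g => (δ g : k) ^ A.e := by
      funext g
      rw [MonoidHom.pow_apply, Units.val_pow_eq_pow_val]
    rw [h3]
    exact (continuous_det_gen A.motivic.continuous hU).pow _
  -- a conjugate of `P`
  set q₁ : GQ ⧸ F.fixingSubgroup := QuotientGroup.mk 1 with hq₁
  set P' := cj (q₁.out)⁻¹ P with hP'def
  have hP' : P'.IsMaximal := cj_max hP
  have hpP' : (p : ZBar) ∈ P' := cj_nat.2 hpP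
  have hcj : cj q₁.out P' = P := by
    rw [hP'def, cj_cj, inv_mul_cancel, cj_one]
  obtain ⟨s, hs⟩ := exists_geom_at hp hP' hpP'
  have hfr := transfer_frob ψ mink_ultra (continuous_chik ψ hψ) (δ ^ A.e) hcδ h1 a h2 hP₀ hℓP₀ hp
    hpℓ hP' hpP' hs
  set E := expo F.fixingSubgroup with hE
  have hE0 : 0 < E := expo_pos
  let y : (GQ ⧸ F.fixingSubgroup) → F.fixingSubgroup := fun q => ⟨q.out⁻¹ * s ^ E * q.out,
    core_conj (pow_core s) q.out⟩
  have hy : ∀ q, IsGeomFrob (p ^ E) (cj q.out P') (y q) := fun q => cj_frob (geom_pow hs E)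
  -- the elements
  let z : (GQ ⧸ F.fixingSubgroup) → F.fixingSubgroup := fun q => if q = q₁ then σ else y q
  let fq : (GQ ⧸ F.fixingSubgroup) → ℕ := fun q => if q = q₁ then f else E
  let gq : (GQ ⧸ F.fixingSubgroup) → ℕ := fun q => if q = q₁ then E else f
  have hfg : ∀ q, fq q * gq q = f * E := by
    intro q
    show (if q = q₁ then f else E) * (if q = q₁ then E else f) = f * E
    split_ifs
    · rfl
    · exact mul_comm _ _
  have hgr : ∀ q, ∃ Q' : ℕ → ℤ[X], (q = q₁ → Q' = Q) ∧ WeightGraded w (p ^ fq q)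
      (Matrix.toLin' (A.ρ (A.θ (z q))).1) (Matrix.toLin' (N (cj q.out P'))) Q' := by
    intro q
    by_cases hq : q = q₁
    · refine ⟨Q, fun _ => rfl, ?_⟩
      have e1 : fq q = f := if_pos hq
      have e2 : z q = σ := if_pos hq
      rw [e1, e2, hq, hcj]
      exact hQ
    · have e1 : fq q = E := if_neg hq
      have e2 : z q = y q := if_neg hq
      obtain ⟨Q', hQ'⟩ := (hN _ (cj_max hP') (cj_nat.2 hpP')).graded E hE0 (y q) (hy q)
      refine ⟨Q', fun h => absurd h hq, ?_⟩
      rw [e1, e2]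
      exact hQ'
  choose Q' hQ'1 hQ'2 using hgr
  have hUz : ∀ q, ∀ x ∈ U, (Matrix.toLin' (A.ρ (A.θ (z q))).1) x ∈ U := fun q x hx => hU (z q) x hx
  have hUN : ∀ q : GQ ⧸ F.fixingSubgroup, ∀ x ∈ U, (Matrix.toLin' (N (cj q.out P'))) x ∈ U :=
    fun q x hx => (hN _ (cj_max hP') (cj_nat.2 hpP')).stable hU x hx
  have hdet0 : ∀ q, (δ (z q) : k) = LinearMap.det
      ((Matrix.toLin' (A.ρ (A.θ (z q))).1).restrict (hUz q)) := by
    intro q
    rw [hδ, detChar_val]
    rfl
  -- the determinant of `σ`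
  have hσy : (δ ^ A.e) (σ ^ E) = (δ ^ A.e) (y q₁ ^ f) := by
    have h3 : IsGeomFrob ((p ^ E) ^ f) P ((y q₁ ^ f : F.fixingSubgroup) : GQ) := by
      have := geom_pow (hy q₁) f
      rw [hcj] at this
      exact this
    have h4 : IsGeomFrob ((p ^ E) ^ f) P ((σ ^ E : F.fixingSubgroup) : GQ) := by
      have := geom_pow hσ E
      rw [← pow_mul, mul_comm, pow_mul] at this
      exact this
    have h5 := geom_unique hP (pow_ne_zero _ (pow_ne_zero _ hp.ne_zero)) h3 h4 (by
      intro x x' hx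
      rw [← pow_mul] at hx
      exact frob_inj hp hP hpP _ x x' hx)
    have h6 := h1 p hp hpℓ P hP hpP ((y q₁ ^ f)⁻¹ * σ ^ E) h5
    rw [map_mul, map_inv] at h6
    exact (inv_mul_eq_one.1 h6).symm
  have hdet : ∏ q, LinearMap.det ((Matrix.toLin' (A.ρ (A.θ (z q))).1).restrict (hUz q)) ^
      (A.e * gq q) = (p : k) ^ (f * E * tot F a P₀) := by
    have h3 : _ ^ f = _ ^ f := congrArg (fun t => t ^ f) hfr
    rw [← Finset.prod_pow, ← pow_mul] at h3
    have h4 : f * E * tot F a P₀ = E * tot F a P₀ * f := by ring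
    rw [h4, ← h3]
    refine Finset.prod_congr rfl fun q _ => ?_
    rw [← hdet0 q]
    by_cases hq : q = q₁
    · have e1 : gq q = E := if_pos hq
      have e2 : z q = σ := if_pos hq
      have h5 := congrArg Units.val hσy
      rw [MonoidHom.pow_apply, map_pow (δ ^ A.e), map_pow, Units.val_pow_eq_pow_val,
        Units.val_pow_eq_pow_val, Units.val_pow_eq_pow_val, ← pow_mul, mul_comm E] at h5
      rw [e1, e2, h5, hq]
    · have e1 : gq q = f := if_neg hq
      have e2 : z q = y q := if_neg hq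
      rw [e1, e2, pow_mul, MonoidHom.pow_apply, Units.val_pow_eq_pow_val]
  have htot : 2 * tot F a P₀ = A.e * (w * (Fintype.card (GQ ⧸ F.fixingSubgroup) * finrank k U)) := by
    have h3 := total_weight A hU hP₀ hℓP₀
    have h4 : tot F a P₀ = A.e * ∑ q : GQ ⧸ F.fixingSubgroup, ∑ r ∈ Finset.range (w + 1),
        r * A.m ((cj q.out P₀).under (𝓞 F)) U r := by
      unfold tot
      rw [Finset.mul_sum]
    rw [h4, card_quot, ← h3]
    ring
  have h5 := pure_core (V := U) hp.one_lt fq gq (Nat.mul_pos hf hE0) hfg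
    (fun q => (Matrix.toLin' (A.ρ (A.θ (z q))).1).restrict (hUz q))
    (fun q => (Matrix.toLin' (N (cj q.out P'))).restrict (hUN q)) Q'
    (fun q => (hQ'2 q).restrict (hUz q) (hUN q)) A.e_pos hdet htot q₁ j hj
  rw [finrank_wt_restrict, finrank_wt_restrict, hQ'1 q₁ rfl] at h5
  have e2 : z q₁ = σ := if_pos rfl
  rw [e2] at h5
  exact h5

omit hF [IsUltrametricDist k] in
theorem form_apply (A : MotivicRep F ℓ w h k Γ n) (x y : Fin n → k) :
    form A x y = dotProduct x (A.J.mulVec y) := Matrix.toBilin'_apply' _ _ _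

omit hF [IsUltrametricDist k] in
theorem form_nondeg (A : MotivicRep F ℓ w h k Γ n) (x : Fin n → k) (hx : ∀ y, form A x y = 0) :
    x = 0 := by
  have h1 : Matrix.vecMul x A.J = 0 := by
    funext i
    have h2 := hx (Pi.single i 1)
    rw [form_apply, Matrix.dotProduct_mulVec, dotProduct_single, mul_one] at h2
    exact h2
  by_contra hne
  exact A.nondegenerate (Matrix.exists_vecMul_eq_zero_iff.1 ⟨x, hne, h1⟩)

omit hF [IsUltrametricDist k] in
theorem form_symm (A : MotivicRep F ℓ w h k Γ n) (x y : Fin n → k) :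
    form A x y = (-1) ^ w * form A y x := by
  have h1 := A.symm
  have h2 : A.J = (-1 : k) ^ w • A.J.transpose := by
    rw [h1]
    have h3 : ((-1 : ℤ) ^ w • A.J : Matrix (Fin n) (Fin n) k) = ((-1 : k) ^ w) • A.J := by
      rcases neg_one_pow_eq_or ℤ w with h | h
      · have h' : (-1 : k) ^ w = 1 := by exact_mod_cast congrArg (Int.cast : ℤ → k) h
        rw [h, h', one_smul, one_smul]
      · have h' : (-1 : k) ^ w = -1 := by
          have := congrArg (Int.cast : ℤ → k) h
          push_cast at this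
          exact this
        rw [h, h', neg_smul, neg_smul, one_smul, one_smul]
    rw [h3, smul_smul, ← mul_pow, neg_one_mul, neg_neg, one_pow, one_smul]
  rw [form_apply, form_apply]
  conv_lhs => rw [h2]
  rw [Matrix.smul_mulVec, dotProduct_smul, smul_eq_mul, Matrix.mulVec_transpose, dotProduct_comm,
    ← Matrix.dotProduct_mulVec]

omit hF [IsUltrametricDist k] in
theorem form_skew (A : MotivicRep F ℓ w h k Γ n) {p : ℕ} {P : Ideal ZBar}
    {N : Matrix (Fin n) (Fin n) k} (hN : MonodromyAt A p P N) (x y : Fin n → k) :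
    form A (Matrix.toLin' N x) y = - form A x (Matrix.toLin' N y) := by
  rw [form_apply, form_apply, Matrix.toLin'_apply, Matrix.toLin'_apply, Matrix.mulVec_mulVec,
    ← dotProduct_neg, ← Matrix.neg_mulVec, ← hN.skew, ← Matrix.mulVec_mulVec,
    Matrix.dotProduct_mulVec x, Matrix.vecMul_transpose]

/-- **There are no stable isotropic subspaces.** -/
theorem noIso_of_anisotropic (A : MotivicRep F ℓ w h k Γ n) {p : ℕ} (hp : p.Prime) (hpℓ : ℓ ≠ p)
    (N : Ideal ZBar → Matrix (Fin n) (Fin n) k)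
    (hN : HasMonodromy A p N)
    {P : Ideal ZBar} (hP : P.IsMaximal) (hpP : (p : ZBar) ∈ P) {f : ℕ} (hf : 0 < f)
    {σ : F.fixingSubgroup} (hσ : IsGeomFrob (p ^ f) P σ)
    (ha : Anisotropic (form A) (Matrix.toLin' (A.ρ (A.θ σ)).1) (Matrix.toLin' (N P))) :
    NoIso (A.ρ.comp A.θ) A.J := by
  have : CharZero k := charZero_of_injective_algebraMap (algebraMap ℚ_[ℓ] k).injective
  intro U hU hiso
  obtain ⟨Q, hQ⟩ := (hN P hP hpP).graded f hf σ hσ
  have hq : 1 < p ^ f := Nat.one_lt_pow (by omega) hp.one_lt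
  refine hQ.no_isotropic hq ha (fun x hx => hU σ x hx)
    (fun x hx => (hN P hP hpP).stable hU x hx) (fun x hx y hy => ?_) (fun j hj => ?_)
  · rw [form_apply]
    exact hiso x hx y hy
  · have h1 := pure_sub A hp hpℓ N hN hU hP hpP hf hσ hQ hj
    rw [← Submodule.finrank_eq_zero (R := k), ← Submodule.finrank_eq_zero (R := k)]
    unfold act
    rw [h1]

theorem nilpotent (A : MotivicRep F ℓ w h k Γ n) {p : ℕ} (hp : p.Prime)
    {N : Matrix (Fin n) (Fin n) k} {P : Ideal ZBar} (hN : MonodromyAt A p P N)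
    {f : ℕ} (hf : 0 < f) {σ : F.fixingSubgroup} (hσ : IsGeomFrob (p ^ f) P σ) (x : Fin n → k) :
    ((Matrix.toLin' N) ^ (w + 1)) x = 0 := by
  have : CharZero k := charZero_of_injective_algebraMap (algebraMap ℚ_[ℓ] k).injective
  obtain ⟨Q, hQ⟩ := hN.graded f hf σ hσ
  have hq : 1 < p ^ f := Nat.one_lt_pow (by omega) hp.one_lt
  obtain ⟨c, hc1, hc2, hc3, hc4, hc5, hc6⟩ := hQ.exists_comp hq
  rw [← hc5 x, map_sum]
  apply Finset.sum_eq_zero
  intro i hi
  rw [Finset.mem_range] at hi
  exact hQ.pow_low (by omega) (hc1 i x)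

/-- every nonzero subspace stable under a nilpotent endomorphism meets the kernel -/
theorem ker_inf {k V : Type*} [Field k] [AddCommGroup V] [Module k V] {N : Module.End k V}
    {m : ℕ} (hN : ∀ x, (N ^ m) x = 0) {U : Submodule k V} (hU : ∀ x ∈ U, N x ∈ U) (hne : U ≠ ⊥) :
    LinearMap.ker N ⊓ U ≠ ⊥ := by
  intro h
  apply hne
  have h1 : ∀ i : ℕ, ∀ x ∈ U, (N ^ i) x = 0 → x = 0 := by
    intro i
    induction i with
    | zero => intro x _ hx; simpa using hx
    | succ i ih =>
      intro x hx hx0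
      have h2 : N x = 0 := by
        apply ih _ (hU x hx)
        rw [← Module.End.mul_apply, ← pow_succ]
        exact hx0
      have h3 : x ∈ LinearMap.ker N ⊓ U := ⟨LinearMap.mem_ker.2 h2, hx⟩
      rw [h, Submodule.mem_bot] at h3
      exact h3
  rw [eq_bot_iff]
  intro x hx
  exact h1 m x hx (hN x)

/-- one Jordan block: at most one of two disjoint stable subspaces is not zero -/
theorem one_block {k V : Type*} [Field k] [AddCommGroup V] [Module k V] [FiniteDimensional k V]
    {N : Module.End k V} {m : ℕ} (hN : ∀ x, (N ^ m) x = 0) (h1 : finrank k (LinearMap.ker N) ≤ 1)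
    {U U' : Submodule k V} (hU : ∀ x ∈ U, N x ∈ U) (hU' : ∀ x ∈ U', N x ∈ U')
    (hd : Disjoint U U') : U = ⊥ ∨ U' = ⊥ := by
  by_contra hcon
  push Not at hcon
  have h2 := ker_inf hN hU hcon.1
  have h3 := ker_inf hN hU' hcon.2
  have key : ∀ W : Submodule k V, LinearMap.ker N ⊓ W ≠ ⊥ → LinearMap.ker N ≤ W := by
    intro W hW
    have h4 : LinearMap.ker N ⊓ W = LinearMap.ker N := by
      apply Submodule.eq_of_le_of_finrank_le inf_le_left
      refine h1.trans ?_
      rw [Nat.one_le_iff_ne_zero, Ne, Submodule.finrank_eq_zero]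
      exact hW
    exact inf_eq_left.1 h4
  have h4 : LinearMap.ker N ≤ U ⊓ U' := le_inf (key U h2) (key U' h3)
  rw [disjoint_iff.1 hd] at h4
  apply h2
  rw [eq_bot_iff]
  exact inf_le_left.trans h4

/-- one Jordan block: the blocks are of different sizes -/
theorem distinct_of_one {k V : Type*} [Field k] [AddCommGroup V] [Module k V]
    [FiniteDimensional k V] {N : Module.End k V} (h1 : finrank k (LinearMap.ker N) ≤ 1) :
    DistinctBlocks N := by
  intro m
  have h2 : ∀ i : ℕ, finrank k (LinearMap.ker (N ^ (i + 1))) ≤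
      finrank k (LinearMap.ker (N ^ i)) + 1 := by
    intro i
    have h3 := LinearMap.finrank_range_add_finrank_ker
      ((N ^ i).domRestrict (LinearMap.ker (N ^ (i + 1))))
    rw [LinearMap.range_domRestrict, LinearMap.ker_domRestrict] at h3
    have h4 : LinearMap.ker (N ^ i) ≤ LinearMap.ker (N ^ (i + 1)) := by
      intro v hv
      rw [LinearMap.mem_ker] at hv ⊢
      rw [pow_succ', Module.End.mul_apply, hv, map_zero]
    have h5 : finrank k (Submodule.comap (LinearMap.ker (N ^ (i + 1))).subtype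
        (LinearMap.ker (N ^ i))) = finrank k (LinearMap.ker (N ^ i)) :=
      LinearEquiv.finrank_eq (Submodule.comapSubtypeEquivOfLe h4)
    have h6 : (LinearMap.ker (N ^ (i + 1))).map (N ^ i) ≤ LinearMap.ker N := by
      rintro _ ⟨x, hx, rfl⟩
      rw [LinearMap.mem_ker, ← Module.End.mul_apply, ← pow_succ']
      exact hx
    have h7 := Submodule.finrank_mono h6
    rw [h5] at h3
    omega
  have h3 : finrank k (LinearMap.ker (N ^ (m + 1))) ≤ finrank k (LinearMap.ker (N ^ (m + 2))) := by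
    apply Submodule.finrank_mono
    intro v hv
    rw [LinearMap.mem_ker] at hv ⊢
    rw [pow_succ', Module.End.mul_apply, hv, map_zero]
  have h4 := h2 m
  omega

/-- **Semisimplicity.** -/
theorem semisimple_of (A : MotivicRep F ℓ w h k Γ n) (hno : NoIso (A.ρ.comp A.θ) A.J) :
    A.Semisimple := by
  intro U hU
  have h1 : NoIso A.ρ A.J := fun I hI hiso => hno I (fun g x hx => hI (A.θ g) x hx) hiso
  exact ⟨orth_stable A.similitude hU, isCompl_orth A.similitude h1 hU⟩

/-- **The endomorphisms are self-adjoint.** -/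
theorem selfAdjoint_of [IsAlgClosed k] (A : MotivicRep F ℓ w h k Γ n)
    (hno : NoIso (A.ρ.comp A.θ) A.J) : A.SelfAdjoint := by
  have : CharZero k := charZero_of_injective_algebraMap (algebraMap ℚ_[ℓ] k).injective
  have h1 : Equi (A.ρ.comp A.θ) A.J :=
    ⟨fun g => coef ℓ k (Pool.Agent.Y126.SH.chi ℓ (g : GQ) : ℤ_[ℓ]) ^ w,
      fun g => A.motivic.equivariant g⟩
  have hself : ∀ f : Matrix (Fin n) (Fin n) k, A.Commutes f → f.transpose * A.J = A.J * f :=
    fun f hf => self_adjoint h1 hno A.symm A.nondegenerate hf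
  intro f hf
  refine ⟨hself f hf, fun f' hf' => ?_⟩
  have h2 := hself f hf
  have h3 := hself f' hf'
  have h4 := hself (f * f') (fun g => by rw [mul_assoc, hf' g, ← mul_assoc, hf g, mul_assoc])
  rw [Matrix.transpose_mul, mul_assoc, h2, ← mul_assoc, h3, mul_assoc] at h4
  have hJu : IsUnit A.J := by
    rw [Matrix.isUnit_iff_isUnit_det]
    exact isUnit_iff_ne_zero.2 A.nondegenerate
  exact (hJu.mul_left_cancel h4).symm

end glob

end Pool.Agent.D0H76.WM
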